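import Pool.Agent.Helper92.Orb.Packets

/-!
# MP_5ff3c6_ag, packet P2 (handoff 427): the pull back of an invariant pluricanonical form of a
compact orbifold has finite mass modulo `H`
-/

open scoped Manifold ContDiff ENNReal Topology
open MeasureTheory

namespace Pool.Agent.Helper3.Orb

open Pool.Agent Pool.Agent.Helper16.Abund Pool.Agent.Helper92.Orb

universe u v

/-- One coordinate neighbourhood in the target. -/
theorem chart_bound {n m N : ℕ} (hm : 1 ≤ m) {Γ Δ : Type v} {M Z : Type u} [Group Γ]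
    [MulAction Γ M] [Group Δ]
    [MulAction Δ Z] [TopologicalSpace M] [ChartedSpace (Fin n → ℂ) M]
    [IsManifold 𝓘(ℂ, Fin n → ℂ) ω M] [TopologicalSpace Z] [ChartedSpace (Fin n → ℂ) Z]
    [IsManifold 𝓘(ℂ, Fin n → ℂ) ω Z] (hΔ : OrbAction n Δ Z) (H : Subgroup Γ) {g : M → Z}
    (hg : MDifferentiable 𝓘(ℂ, Fin n → ℂ) 𝓘(ℂ, Fin n → ℂ) g)
    (hN : ∀ (z : Z) (T : Finset M), (∀ y ∈ T, ∃ δ : Δ, g y = δ • z) →
      (∀ y ∈ T, ∀ y' ∈ T, ∀ h ∈ H, y' = h • y → y = y') → T.card ≤ N)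
    {s : Z → ℂ} (hs : InvForm n (⊤ : Subgroup Δ) m s) (z₀ : Z) :
    ∃ O : Set Z, IsOpen O ∧ z₀ ∈ O ∧ ∃ C : ℝ≥0∞, C < ⊤ ∧
      ∀ (κ : Type) [Fintype κ] (A V : κ → Set (Fin n → ℂ)) (ψ : κ → (Fin n → ℂ) → M)
        (δ : κ → Δ),
        (∀ i, MeasurableSet (A i)) → (∀ i, IsOpen (V i)) → (∀ i, A i ⊆ V i) →
        (∀ i, MDifferentiableOn 𝓘(ℂ, Fin n → ℂ) 𝓘(ℂ, Fin n → ℂ) (ψ i) (V i)) →
        (∀ i, ∀ z ∈ A i, δ i • g (ψ i z) ∈ O) →
        (∀ i j, ∀ z ∈ A i, ∀ w ∈ A j, ∀ h ∈ H, ψ j w = h • ψ i z → i = j ∧ z = w) →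
        ∑ i, ∫⁻ z in A i, ENNReal.ofReal
            (‖(s (g (ψ i z)) * jac n g (ψ i z) ^ m) * jac n (ψ i) z ^ m‖ ^ (2 / (m : ℝ)))
          ≤ C := by
  classical
  have : IsManifold 𝓘(ℂ, Fin n → ℂ) 1 M := IsManifold.of_le (n := ω) le_top
  have : IsManifold 𝓘(ℂ, Fin n → ℂ) 1 Z := IsManifold.of_le (n := ω) le_top
  set χ := chartAt (Fin n → ℂ) z₀ with hχ
  have hz₀ : z₀ ∈ χ.source := mem_chart_source _ z₀
  have hm0 : (m : ℝ) ≠ 0 := by
    have : m ≠ 0 := by omega
    exact_mod_cast this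
  obtain ⟨r, hr, hball⟩ : ∃ r > 0, Metric.closedBall (χ z₀) r ⊆ χ.target :=
    Metric.nhds_basis_closedBall.mem_iff.mp (χ.open_target.mem_nhds (χ.map_source hz₀))
  set S : (Fin n → ℂ) → ℂ := fun w => s (χ.symm w) * jac n χ.symm w ^ m with hS
  have hSd : DifferentiableOn ℂ S χ.target :=
    hs.1 χ.target χ.symm χ.open_target (mdifferentiableOn_atlas_symm (chart_mem_atlas _ z₀))
  have hSc : ContinuousOn S (Metric.closedBall (χ z₀) r) := hSd.continuousOn.mono hball
  obtain ⟨M', hM⟩ := (isCompact_closedBall (χ z₀) r).exists_bound_of_continuousOn hSc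
  have hq : (0 : ℝ) ≤ 2 / (m : ℝ) := by positivity
  set B : Set (Fin n → ℂ) := Metric.ball (χ z₀) r with hB
  have hBm : MeasurableSet B := measurableSet_ball
  set G : (Fin n → ℂ) → ℝ≥0∞ := B.indicator
    (fun w => ENNReal.ofReal (‖S w‖ ^ (2 / (m : ℝ)))) with hG
  have hGm : Measurable G := by
    rw [hG, ← Set.piecewise_eq_indicator]
    refine ContinuousOn.measurable_piecewise ?_ continuousOn_const hBm
    refine ENNReal.continuous_ofReal.comp_continuousOn ?_
    refine ContinuousOn.rpow_const ?_ (fun x _ => Or.inr hq)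
    exact (hSc.mono Metric.ball_subset_closedBall).norm
  have hGint : ∫⁻ w in B, G w < ⊤ := by
    calc ∫⁻ w in B, G w ≤ ∫⁻ w in B, ENNReal.ofReal (|M'| ^ (2 / (m : ℝ))) := by
          refine lintegral_mono_ae ?_
          refine (ae_restrict_iff' hBm).mpr (Filter.Eventually.of_forall fun w hw => ?_)
          rw [hG, Set.indicator_of_mem hw]
          refine ENNReal.ofReal_le_ofReal (Real.rpow_le_rpow (norm_nonneg _) ?_ hq)
          exact (hM w (Metric.ball_subset_closedBall hw)).trans (le_abs_self M')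
      _ = ENNReal.ofReal (|M'| ^ (2 / (m : ℝ))) * volume B := by
          rw [setLIntegral_const]
      _ < ⊤ := ENNReal.mul_lt_top ENNReal.ofReal_lt_top measure_ball_lt_top
  refine ⟨χ.source ∩ χ ⁻¹' B, χ.isOpen_inter_preimage Metric.isOpen_ball,
    ⟨hz₀, Metric.mem_ball_self hr⟩, N * ∫⁻ w in B, G w,
    ENNReal.mul_lt_top (ENNReal.natCast_lt_top N) hGint, ?_⟩
  intro κ _ A V ψ δ hAm hV hAV hψ hAO hinj
  set O : Set Z := χ.source ∩ χ ⁻¹' B with hO
  have hOo : IsOpen O := χ.isOpen_inter_preimage Metric.isOpen_ball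
  set f : κ → (Fin n → ℂ) → Z := fun i => (fun y : Z => δ i • y) ∘ (g ∘ ψ i) with hf
  set U : κ → Set (Fin n → ℂ) := fun i => V i ∩ f i ⁻¹' O with hU
  have hψa : ∀ i, ∀ z ∈ V i, MDifferentiableAt 𝓘(ℂ, Fin n → ℂ) 𝓘(ℂ, Fin n → ℂ) (ψ i) z :=
    fun i z hz => (hψ i z hz).mdifferentiableAt ((hV i).mem_nhds hz)
  have hga : ∀ i, ∀ z ∈ V i,
      MDifferentiableAt 𝓘(ℂ, Fin n → ℂ) 𝓘(ℂ, Fin n → ℂ) (g ∘ ψ i) z :=
    fun i z hz => (hg (ψ i z)).comp z (hψa i z hz)
  have hfa : ∀ i, ∀ z ∈ V i,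
      MDifferentiableAt 𝓘(ℂ, Fin n → ℂ) 𝓘(ℂ, Fin n → ℂ) (f i) z :=
    fun i z hz => (hΔ.holo (δ i) ((g ∘ ψ i) z)).comp z (hga i z hz)
  have hUo : ∀ i, IsOpen (U i) := by
    intro i
    have hc : ContinuousOn (f i) (V i) := fun z hz =>
      (hfa i z hz).continuousAt.continuousWithinAt
    exact hc.isOpen_inter_preimage (hV i) hOo
  have hAU : ∀ i, A i ⊆ U i := fun i z hz => ⟨hAV i hz, hAO i z hz⟩
  set h : κ → (Fin n → ℂ) → (Fin n → ℂ) := fun i => χ ∘ f i with hh
  have hha : ∀ i, ∀ z ∈ U i,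
      MDifferentiableAt 𝓘(ℂ, Fin n → ℂ) 𝓘(ℂ, Fin n → ℂ) (h i) z := by
    intro i z hz
    exact (mdifferentiableAt_atlas (chart_mem_atlas _ z₀) hz.2.1).comp z (hfa i z hz.1)
  have hhd : ∀ i, DifferentiableOn ℂ (h i) (U i) := by
    intro i z hz
    exact (mdifferentiableAt_iff_differentiableAt.mp (hha i z hz)).differentiableWithinAt
  have key := Helper36.Abund.lintegral_comp_le (N := N) (A := A) hAm hUo hAU hhd ?_ hBm
    (fun i z hz => (hAU i hz).2.2) hGm
  · refine le_trans (le_of_eq ?_) key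
    refine Finset.sum_congr rfl fun i _ => ?_
    refine setLIntegral_congr_fun (hAm i) fun z hz' => ?_
    have hz : z ∈ U i := hAU i hz'
    have hz2 : f i z ∈ χ.source := hz.2.1
    have hzB : h i z ∈ B := hz.2.2
    have hsymm : χ.symm (h i z) = f i z := χ.left_inv hz2
    have e1 : jac n (f i) z = jac n (fun y : Z => δ i • y) (g (ψ i z)) *
        (jac n g (ψ i z) * jac n (ψ i) z) := by
      rw [← jac_comp (hg (ψ i z)) (hψa i z hz.1)]
      exact jac_comp (hΔ.holo (δ i) ((g ∘ ψ i) z)) (hga i z hz.1)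
    have e2 : jac n (f i) z = jac n χ.symm (h i z) * (fderiv ℂ (h i) z).det := by
      have hev : f i =ᶠ[nhds z] (χ.symm ∘ h i) := by
        filter_upwards [(hUo i).mem_nhds hz] with z' hz'
        exact (χ.left_inv hz'.2.1).symm
      rw [jac_congr hev, jac_comp ?_ (hha i z hz), jac_eq_fderiv]
      exact mdifferentiableAt_atlas_symm (chart_mem_atlas _ z₀) (χ.map_source hz2)
    have einv : s (g (ψ i z)) = s (f i z) * jac n (fun y : Z => δ i • y) (g (ψ i z)) ^ m :=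
      (hs.2 (δ i) (Subgroup.mem_top _) (g (ψ i z))).symm
    have e3 : (s (g (ψ i z)) * jac n g (ψ i z) ^ m) * jac n (ψ i) z ^ m =
        S (h i z) * (fderiv ℂ (h i) z).det ^ m := by
      have e5 : (s (g (ψ i z)) * jac n g (ψ i z) ^ m) * jac n (ψ i) z ^ m =
          s (f i z) * (jac n (f i) z) ^ m := by
        rw [einv, e1]
        ring
      rw [e5, e2, hS]
      simp only [hsymm]
      ring
    have e4 : ‖(s (g (ψ i z)) * jac n g (ψ i z) ^ m) * jac n (ψ i) z ^ m‖ ^ (2 / (m : ℝ)) =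
        ‖S (h i z)‖ ^ (2 / (m : ℝ)) * ‖(fderiv ℂ (h i) z).det‖ ^ 2 := by
      rw [e3, norm_mul, Real.mul_rpow (norm_nonneg _) (norm_nonneg _), norm_pow,
        ← Real.rpow_natCast (‖(fderiv ℂ (h i) z).det‖) m, ← Real.rpow_mul (norm_nonneg _),
        mul_div_cancel₀ _ hm0, Real.rpow_two]
    rw [e4, ENNReal.ofReal_mul (by positivity), hG, Set.indicator_of_mem hzB]
  · intro w
    by_contra hcon
    push Not at hcon
    have hcon' : ((N + 1 : ℕ) : ℕ∞) ≤
        {x : κ × (Fin n → ℂ) | x.2 ∈ A x.1 ∧ h x.1 x.2 = w}.encard := by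
      push_cast
      exact Order.add_one_le_of_lt hcon
    obtain ⟨T₀, hT₀, hcard⟩ := Set.exists_subset_encard_eq hcon'
    have hfin : T₀.Finite := Set.finite_of_encard_eq_coe hcard
    have hcard' : hfin.toFinset.card = N + 1 := by
      rw [hfin.encard_eq_coe_toFinset_card] at hcard
      exact_mod_cast hcard
    have hTm : ∀ x ∈ hfin.toFinset, x.2 ∈ A x.1 ∧ h x.1 x.2 = w := by
      intro x hx
      exact hT₀ (hfin.mem_toFinset.1 hx)
    have hinj' : Set.InjOn (fun x : κ × (Fin n → ℂ) => ψ x.1 x.2) (hfin.toFinset : Set _) := by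
      intro x hx y hy hxy
      have hx' := hTm x hx
      have hy' := hTm y hy
      have h1 := hinj x.1 y.1 x.2 hx'.1 y.2 hy'.1 1 H.one_mem (by
        rw [one_smul]; exact hxy.symm)
      exact Prod.ext h1.1 h1.2
    have hle := hN (χ.symm w) (hfin.toFinset.image (fun x => ψ x.1 x.2)) (by
      intro y hy
      obtain ⟨x, hx, rfl⟩ := Finset.mem_image.1 hy
      obtain ⟨hx1, hx2⟩ := hTm x hx
      refine ⟨(δ x.1)⁻¹, ?_⟩
      have h2 : χ.symm w = δ x.1 • g (ψ x.1 x.2) := by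
        rw [← hx2]
        exact χ.left_inv (hAU x.1 hx1).2.1
      rw [h2, inv_smul_smul]) (by
      intro y hy y' hy' a ha haa
      obtain ⟨x, hx, rfl⟩ := Finset.mem_image.1 hy
      obtain ⟨x', hx', rfl⟩ := Finset.mem_image.1 hy'
      have h1 := hinj x.1 x'.1 x.2 (hTm x hx).1 x'.2 (hTm x' hx').1 a ha haa
      have : x = x' := Prod.ext h1.1 h1.2
      rw [this])
    rw [Finset.card_image_of_injOn hinj', hcard'] at hle
    omega

theorem stmtMassModPullback : StmtMassModPullback.{u, v} := by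
  classical
  intro n m N hm Γ Δ M Z _ _ _ _ _ _ _ _ _ _ hΔ H g hg hN s hs
  have : IsManifold 𝓘(ℂ, Fin n → ℂ) 1 M := IsManifold.of_le (n := ω) le_top
  have : IsManifold 𝓘(ℂ, Fin n → ℂ) 1 Z := IsManifold.of_le (n := ω) le_top
  choose O hOo hzO C hC hbound using fun z₀ => chart_bound hm hΔ H hg hN hs z₀
  obtain ⟨L, hL, hLcov⟩ := hΔ.cocompact
  obtain ⟨t, -, ht⟩ := hL.elim_nhds_subcover O (fun z _ => (hOo z).mem_nhds (hzO z))
  have hCt : ∑ k : t, C k.1 < ⊤ := ENNReal.sum_lt_top.mpr fun k _ => hC k.1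
  refine ⟨(∑ k : t, C k.1).toReal, ?_⟩
  intro N' A V ψ hAm hV hAV hψ hinj
  rw [ENNReal.ofReal_toReal hCt.ne]
  set F : Fin N' → (Fin n → ℂ) → ℝ≥0∞ := fun i z => ENNReal.ofReal
    (‖(s (g (ψ i z)) * jac n g (ψ i z) ^ m) * jac n (ψ i) z ^ m‖ ^ (2 / (m : ℝ))) with hF
  show ∑ i, ∫⁻ z in A i, F i z ≤ _
  -- the open pieces
  set W : Fin N' → (t × Δ) → Set (Fin n → ℂ) := fun i p =>
    V i ∩ (fun z => p.2 • g (ψ i z)) ⁻¹' O p.1.1 with hW
  have hWo : ∀ i p, IsOpen (W i p) := by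
    intro i p
    have hc : ContinuousOn (fun z => p.2 • g (ψ i z)) (V i) := by
      intro z hz
      have h1 : MDifferentiableAt 𝓘(ℂ, Fin n → ℂ) 𝓘(ℂ, Fin n → ℂ) (ψ i) z :=
        (hψ i z hz).mdifferentiableAt ((hV i).mem_nhds hz)
      have h2 : MDifferentiableAt 𝓘(ℂ, Fin n → ℂ) 𝓘(ℂ, Fin n → ℂ) (g ∘ ψ i) z :=
        (hg (ψ i z)).comp z h1
      have h3 : MDifferentiableAt 𝓘(ℂ, Fin n → ℂ) 𝓘(ℂ, Fin n → ℂ)
          ((fun y : Z => p.2 • y) ∘ (g ∘ ψ i)) z := (hΔ.holo p.2 ((g ∘ ψ i) z)).comp z h2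
      exact h3.continuousAt.continuousWithinAt
    exact hc.isOpen_inter_preimage (hV i) (hOo _)
  have hWcov : ∀ i, ⋃ p, W i p = V i := by
    intro i
    ext z
    simp only [Set.mem_iUnion]
    constructor
    · rintro ⟨p, hz, -⟩
      exact hz
    · intro hz
      obtain ⟨d, hd⟩ := hLcov (g (ψ i z))
      obtain ⟨k, hk⟩ := Set.mem_iUnion.mp (ht hd)
      obtain ⟨hk1, hk2⟩ := Set.mem_iUnion.mp hk
      exact ⟨(⟨k, hk1⟩, d), hz, hk2⟩
  choose T hTc hTcov using fun i => TopologicalSpace.isOpen_iUnion_countable (W i) (hWo i)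
  have hTT : (⋃ i, T i).Countable := Set.countable_iUnion hTc
  rcases (⋃ i, T i).eq_empty_or_nonempty with hemp | hne
  · -- all pieces are empty
    have hA0 : ∀ i, A i = ∅ := by
      intro i
      have h1 : T i = ∅ := by
        rw [Set.iUnion_eq_empty] at hemp
        exact hemp i
      have h2 := hTcov i
      rw [h1, hWcov] at h2
      simp only [Set.mem_empty_iff_false, Set.iUnion_of_empty, Set.iUnion_empty] at h2
      exact Set.subset_eq_empty (hAV i) h2.symm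
    simp only [hA0, Measure.restrict_empty, lintegral_zero_measure, Finset.sum_const_zero]
    exact zero_le
  obtain ⟨e, he⟩ := hTT.exists_eq_range hne
  have hcov : ∀ i, V i ⊆ ⋃ k : ℕ, W i (e k) := by
    intro i z hz
    rw [← hWcov i, ← hTcov i] at hz
    simp only [Set.mem_iUnion] at hz ⊢
    obtain ⟨p, hp, hzp⟩ := hz
    have : p ∈ Set.range e := by
      rw [← he]
      exact Set.mem_iUnion.2 ⟨i, hp⟩
    obtain ⟨k, rfl⟩ := this
    exact ⟨k, hzp⟩
  set D : Fin N' → ℕ → Set (Fin n → ℂ) := fun i k => A i ∩ disjointed (fun k => W i (e k)) k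
    with hD
  have hDm : ∀ i k, MeasurableSet (D i k) := by
    intro i k
    exact (hAm i).inter (MeasurableSet.disjointed (fun k => (hWo i (e k)).measurableSet) k)
  have hDW : ∀ i k, D i k ⊆ W i (e k) := fun i k z hz => disjointed_subset _ k hz.2
  have hDdis : ∀ i, Pairwise (Function.onFun Disjoint (D i)) := by
    intro i k l hkl
    have h1 := disjoint_disjointed (fun k => W i (e k)) hkl
    exact Disjoint.mono Set.inter_subset_right Set.inter_subset_right h1
  have hDA : ∀ i, A i = ⋃ k, D i k := by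
    intro i
    rw [hD]
    simp only
    rw [← Set.inter_iUnion, iUnion_disjointed]
    exact (Set.inter_eq_left.2 ((hAV i).trans (hcov i))).symm
  have hsum : ∑ i, ∫⁻ z in A i, F i z = ∑' k, ∑ i, ∫⁻ z in D i k, F i z := by
    have h1 : ∀ i, ∫⁻ z in A i, F i z = ∑' k, ∫⁻ z in D i k, F i z := by
      intro i
      conv_lhs => rw [hDA i]
      exact lintegral_iUnion (hDm i) (hDdis i) _
    rw [Finset.sum_congr rfl (fun i _ => h1 i)]
    exact (Summable.tsum_finsetSum (fun i _ => ENNReal.summable)).symm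
  rw [hsum]
  refine ENNReal.tsum_le_of_sum_range_le ?_
  intro K
  rw [← Fin.sum_univ_eq_sum_range (fun k => ∑ i, ∫⁻ z in D i k, F i z) K]
  -- split according to the coordinate neighbourhood
  have hsplit : ∑ k : Fin K, ∑ i, ∫⁻ z in D i k, F i z =
      ∑ j : t, ∑ q : Fin K × Fin N',
        ∫⁻ z in (if (e q.1).1 = j then D q.2 q.1 else ∅), F q.2 z := by
    conv_rhs => rw [Finset.sum_comm, Fintype.sum_prod_type]
    refine Finset.sum_congr rfl fun k _ => Finset.sum_congr rfl fun i _ => ?_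
    rw [Finset.sum_eq_single (e k).1]
    · rw [if_pos rfl]
    · intro j _ hj
      rw [if_neg (Ne.symm hj)]
      simp
    · intro h
      exact absurd (Finset.mem_univ _) h
  rw [hsplit]
  refine Finset.sum_le_sum fun j _ => ?_
  refine hbound j.1 (Fin K × Fin N') (fun q => if (e q.1).1 = j then D q.2 q.1 else ∅)
    (fun q => V q.2) (fun q => ψ q.2) (fun q => (e q.1).2) ?_ ?_ ?_ ?_ ?_ ?_
  · intro q
    split_ifs
    · exact hDm _ _
    · exact MeasurableSet.empty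
  · intro q
    exact hV _
  · intro q
    split_ifs
    · exact fun z hz => hAV _ hz.1
    · exact Set.empty_subset _
  · intro q
    exact hψ _
  · intro q z hz
    split_ifs at hz with hq
    · have h1 := (hDW q.2 q.1 hz).2
      rw [← hq]
      exact h1
    · exact absurd hz (Set.notMem_empty z)
  · intro q q' z hz w hw a ha haa
    split_ifs at hz with hq
    · split_ifs at hw with hq'
      · have h1 := hinj q.2 q'.2 z hz.1 w hw.1 a ha haa
        obtain ⟨h2, h3⟩ := h1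
        subst h3
        refine ⟨?_, rfl⟩
        refine Prod.ext ?_ h2
        by_contra hne
        have hne' : (q.1 : ℕ) ≠ q'.1 := fun h => hne (Fin.ext h)
        rw [← h2] at hw
        exact Set.disjoint_left.1 (hDdis q.2 hne') hz hw
      · exact absurd hw (Set.notMem_empty w)
    · exact absurd hz (Set.notMem_empty z)

end Pool.Agent.Helper3.Orb
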